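import Pool.Agent.helper81.WS.Spec
import Pool.Agent.helper73.PG.COG

/-!
# Project ws (MP_f6e9a2_nt), row COS
-/

set_option autoImplicit false

open Finset

namespace Pool.Agent.WS

open Module Pointwise

open Pool.Agent.helper85.PG (IsSys rr COG_T COG_I COG_f COG_rel COG_sq)

theorem COS_card {p : ℕ} [Fact p.Prime] (P B R2 : Finset (ZMod p)) (k : ℕ)
    (hk : ∀ y : ZMod p, (B.filter fun b => y - b ∈ P).card ≤ k)
    (hR : ∀ x ∈ P, ∀ x' ∈ P, ∀ b ∈ B, ∀ b' ∈ B, (x + b) - (x' + b') ∈ R2) (u : (ZMod p)ˣ) :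
    (COG_T P B u).card ≤ (k * (k * B.card)) * rr R2 (u : ZMod p) := by
  have hmem : ∀ x ∈ COG_T P B u, x.1.1 ∈ P ∧ x.1.2.1 ∈ B ∧ x.1.2.2 ∈ B ∧ x.2.1 ∈ P ∧ x.2.2.1 ∈ B ∧
      x.2.2.2 ∈ B ∧ x.1.1 + x.1.2.1 = (u : ZMod p) * (x.2.1 + x.2.2.1) ∧
      x.1.1 + x.1.2.2 = (u : ZMod p) * (x.2.1 + x.2.2.2) := by
    intro x hx
    unfold COG_T COG_I at hx
    rw [Finset.mem_filter, Finset.mem_product, Finset.mem_product, Finset.mem_product,
      Finset.mem_product, Finset.mem_product] at hx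
    obtain ⟨⟨⟨h1, h2, h3⟩, h4, h5, h6⟩, h7⟩ := hx
    obtain ⟨h8, h9⟩ := COG_rel h7
    exact ⟨h1, h2, h3, h4, h5, h6, h8, h9⟩
  -- the image under `y' = x' + b₁'`
  have himg : ((COG_T P B u).image fun x => x.2.1 + x.2.2.1).card ≤ rr R2 (u : ZMod p) := by
    rcases (COG_T P B u).eq_empty_or_nonempty with hE | ⟨x₀, hx₀⟩
    · rw [hE, Finset.image_empty, Finset.card_empty]
      exact Nat.zero_le _
    · obtain ⟨a1, a2, a3, a4, a5, a6, a7, a8⟩ := hmem x₀ hx₀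
      unfold rr
      refine Finset.card_le_card_of_injOn (fun y => y - (x₀.2.1 + x₀.2.2.1)) ?_ ?_
      · intro y hy
        rw [Finset.mem_coe, Finset.mem_image] at hy
        obtain ⟨x, hx, rfl⟩ := hy
        obtain ⟨b1, b2, b3, b4, b5, b6, b7, b8⟩ := hmem x hx
        rw [Finset.mem_coe, Finset.mem_filter]
        refine ⟨hR _ b4 _ a4 _ b5 _ a5, ?_⟩
        have h1 : (u : ZMod p) * (x.2.1 + x.2.2.1 - (x₀.2.1 + x₀.2.2.1)) =
            (x.1.1 + x.1.2.1) - (x₀.1.1 + x₀.1.2.1) := by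
          rw [b7, a7]; ring
        change (u : ZMod p) * (x.2.1 + x.2.2.1 - (x₀.2.1 + x₀.2.2.1)) ∈ R2
        rw [h1]
        exact hR _ b1 _ a1 _ b2 _ a2
      · intro y _ y' _ hyy
        exact sub_left_injective hyy
  refine (Finset.card_le_mul_card_image (f := fun x : (ZMod p × (ZMod p × ZMod p)) ×
    (ZMod p × (ZMod p × ZMod p)) => x.2.1 + x.2.2.1) (COG_T P B u) (k * (k * B.card)) ?_).trans
    (Nat.mul_le_mul_left _ himg)
  intro y _
  -- the fiber over `y`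
  have hcard : ((B.filter fun b => y - b ∈ P) ×ˢ ((B.filter fun b => (u : ZMod p) * y - b ∈ P) ×ˢ B)).card ≤
      k * (k * B.card) := by
    rw [Finset.card_product, Finset.card_product]
    exact Nat.mul_le_mul (hk y) (Nat.mul_le_mul (hk _) le_rfl)
  refine le_trans ?_ hcard
  refine Finset.card_le_card_of_injOn (fun x => (x.2.2.1, (x.1.2.1, x.2.2.2))) ?_ ?_
  · intro x hx
    rw [Finset.mem_coe, Finset.mem_filter] at hx
    obtain ⟨b1, b2, b3, b4, b5, b6, b7, b8⟩ := hmem x hx.1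
    have hy : x.2.1 + x.2.2.1 = y := hx.2
    rw [Finset.mem_coe, Finset.mem_product, Finset.mem_product, Finset.mem_filter, Finset.mem_filter]
    refine ⟨⟨b5, ?_⟩, ⟨b2, ?_⟩, b6⟩
    · change y - x.2.2.1 ∈ P
      have : y - x.2.2.1 = x.2.1 := by rw [← hy]; ring
      rw [this]; exact b4
    · change (u : ZMod p) * y - x.1.2.1 ∈ P
      have : (u : ZMod p) * y - x.1.2.1 = x.1.1 := by rw [← hy, ← b7]; ring
      rw [this]; exact b1
  · intro x hx x' hx' hxx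
    rw [Finset.mem_coe, Finset.mem_filter] at hx hx'
    obtain ⟨b1, b2, b3, b4, b5, b6, b7, b8⟩ := hmem x hx.1
    obtain ⟨c1, c2, c3, c4, c5, c6, c7, c8⟩ := hmem x' hx'.1
    have hy : x.2.1 + x.2.2.1 = y := hx.2
    have hy' : x'.2.1 + x'.2.2.1 = y := hx'.2
    have hq : ((x.2.2.1, (x.1.2.1, x.2.2.2)) : ZMod p × (ZMod p × ZMod p)) =
        (x'.2.2.1, (x'.1.2.1, x'.2.2.2)) := hxx
    have e1 : x.2.2.1 = x'.2.2.1 := (Prod.mk.inj hq).1
    have e2 : x.1.2.1 = x'.1.2.1 := (Prod.mk.inj (Prod.mk.inj hq).2).1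
    have e3 : x.2.2.2 = x'.2.2.2 := (Prod.mk.inj (Prod.mk.inj hq).2).2
    have e4 : x.2.1 = x'.2.1 := by
      rw [e1] at hy
      exact add_right_cancel (hy.trans hy'.symm)
    have e5 : x.1.1 = x'.1.1 := by
      rw [e2, hy] at b7
      rw [hy'] at c7
      exact add_right_cancel (b7.trans c7.symm)
    have e6 : x.1.2.2 = x'.1.2.2 := by
      rw [e5, e4, e3] at b8
      exact add_left_cancel (b8.trans c8.symm)
    exact Prod.ext (Prod.ext e5 (Prod.ext e2 e6)) (Prod.ext e4 (Prod.ext e1 e3))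

theorem COS : COS_stmt := by
  intro p _ M P B R2 κ hκ hB hR
  -- the natural number bound
  obtain ⟨k, hk, hkκ⟩ : ∃ k : ℕ, (∀ y : ZMod p, (B.filter fun b => y - b ∈ P).card ≤ k) ∧ (k : ℝ) ≤ κ := by
    refine ⟨⌊κ⌋₊, fun y => ?_, Nat.floor_le hκ⟩
    exact Nat.le_floor (hB y)
  rw [COG_sq, Finset.mul_sum]
  refine Finset.sum_le_sum fun m _ => ?_
  rw [Finset.mul_sum]
  refine Finset.sum_le_sum fun m' _ => ?_
  have h1 := COS_card P B R2 k hk hR (m / m')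
  have h3 : ((m / m' : (ZMod p)ˣ) : ZMod p) = (m : ZMod p) / (m' : ZMod p) :=
    Units.val_div_eq_div_val m m'
  rw [h3] at h1
  have h5 : ((COG_T P B (m / m')).card : ℝ) ≤ ((k : ℝ) * ((k : ℝ) * (B.card : ℝ))) *
      (rr R2 ((m : ZMod p) / (m' : ZMod p)) : ℝ) := by
    exact_mod_cast h1
  refine h5.trans ?_
  refine mul_le_mul_of_nonneg_right ?_ (Nat.cast_nonneg _)
  have h6 : (k : ℝ) * k ≤ κ ^ 2 := by
    rw [sq]
    exact mul_le_mul hkκ hkκ (Nat.cast_nonneg _) hκ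
  have h7 : (0 : ℝ) ≤ (B.card : ℝ) := Nat.cast_nonneg _
  nlinarith [mul_le_mul_of_nonneg_right h6 h7]

end Pool.Agent.WS
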