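import Pool.Agent.helper81.WS.Spec

/-!
# Project ws (MP_f6e9a2_nt), row SHW
-/

set_option autoImplicit false

open Finset

namespace Pool.Agent.WS

open Module Pointwise

open Pool.Agent.helper85.PG (IsSys rr)

theorem SHW : SHW_stmt := by
  intro p _ χ w V b b' hw hbb
  have hh : b' - b ≠ 0 := sub_ne_zero.mpr hbb
  obtain ⟨h, hhdef⟩ : ∃ h : ZMod p, h = b' - b := ⟨_, rfl⟩
  rw [← hhdef] at hh ⊢
  have hb' : b' = b + h := by rw [hhdef]; ring
  subst hb'
  clear hhdef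
  obtain ⟨F, hFdef⟩ : ∃ F : ZMod p → ℂ, F = fun c => χ (c + b) * (starRingEnd ℂ) (χ (c + (b + h))) := ⟨_, rfl⟩
  have hle : ∀ y : ZMod p, ‖χ y‖ ≤ 1 := fun y => DirichletCharacter.norm_le_one χ y
  have hF : ∀ n, ‖F n‖ ≤ 1 := by
    intro n
    simp only [hFdef]
    rw [norm_mul, RCLike.norm_conj]
    exact mul_le_one₀ (hle _) (norm_nonneg _) (hle _)
  have hGw : Gw χ w b (b + h) = ∑ c : ZMod p, (w c : ℂ) * F c := by
    rw [hFdef]; rfl
  have hunit : χ h * (starRingEnd ℂ) (χ h) = 1 := by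
    rw [Complex.mul_conj, Complex.normSq_eq_norm_sq]
    have : ‖χ h‖ = 1 := DirichletCharacter.unit_norm_eq_one χ (Units.mk0 _ hh)
    rw [this]
    norm_num
  have hFv : ∀ (x : ZMod p) (v : ℕ), F ((x * h - b) + ((2 * v : ℕ) : ZMod p) * h) =
      χ (((2 * v : ℕ) : ZMod p) + x) * (starRingEnd ℂ) (χ (((2 * v + 1 : ℕ) : ZMod p) + x)) := by
    intro x v
    simp only [hFdef]
    have e1 : (x * h - b) + ((2 * v : ℕ) : ZMod p) * h + b = h * (((2 * v : ℕ) : ZMod p) + x) := by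
      ring
    have e2 : (x * h - b) + ((2 * v : ℕ) : ZMod p) * h + (b + h) = h * (((2 * v + 1 : ℕ) : ZMod p) + x) := by
      push_cast
      ring
    rw [e1, e2, map_mul, map_mul, map_mul]
    calc _ = (χ h * (starRingEnd ℂ) (χ h)) * (χ (((2 * v : ℕ) : ZMod p) + x) *
        (starRingEnd ℂ) (χ (((2 * v + 1 : ℕ) : ZMod p) + x))) := by
          ring
      _ = _ := by rw [hunit, one_mul]
  have hshift : ∀ s : ZMod p, ∑ c : ZMod p, (w c : ℂ) * F c =
      ∑ c : ZMod p, (w c : ℂ) * F (c + s) + ∑ c : ZMod p, ((w (c + s) - w c : ℝ) : ℂ) * F (c + s) := by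
    intro s
    have h1 : ∑ c : ZMod p, (w c : ℂ) * F c = ∑ c : ZMod p, (w (c + s) : ℂ) * F (c + s) :=
      (Equiv.sum_comp (Equiv.addRight s) (fun c : ZMod p => (w c : ℂ) * F c)).symm
    rw [h1, ← Finset.sum_add_distrib]
    refine Finset.sum_congr rfl fun c _ => ?_
    push_cast
    ring
  have hV : (V : ℝ) * ‖Gw χ w b (b + h)‖ = ‖∑ v ∈ Icc 1 V, ∑ c : ZMod p, (w c : ℂ) * F c‖ := by
    rw [hGw, Finset.sum_const, Nat.card_Icc, Nat.add_sub_cancel, nsmul_eq_mul, norm_mul, Complex.norm_natCast]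
  rw [hV]
  have hsplit : ∑ v ∈ Icc 1 V, ∑ c : ZMod p, (w c : ℂ) * F c =
      ∑ c : ZMod p, (w c : ℂ) * ∑ v ∈ Icc 1 V, F (c + ((2 * v : ℕ) : ZMod p) * h) +
      ∑ v ∈ Icc 1 V, ∑ c : ZMod p, ((w (c + ((2 * v : ℕ) : ZMod p) * h) - w c : ℝ) : ℂ) *
        F (c + ((2 * v : ℕ) : ZMod p) * h) := by
    rw [Finset.sum_congr rfl fun (v : ℕ) _ => hshift (((2 * v : ℕ) : ZMod p) * h), Finset.sum_add_distrib,
      Finset.sum_comm]
    congr 1
    refine Finset.sum_congr rfl fun c _ => ?_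
    rw [Finset.mul_sum]
  rw [hsplit]
  refine (norm_add_le _ _).trans (add_le_add ?_ ?_)
  · have hbij : Function.Bijective (fun x : ZMod p => x * h - b) := by
      refine (Finite.injective_iff_bijective).mp ?_
      intro x y hxy
      have : x * h = y * h := by
        have h2 : x * h - b = y * h - b := hxy
        linear_combination h2
      exact mul_right_cancel₀ hh this
    have h3 : ∑ c : ZMod p, (w c : ℂ) * ∑ v ∈ Icc 1 V, F (c + ((2 * v : ℕ) : ZMod p) * h) =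
        ∑ x : ZMod p, (w (x * h - b) : ℂ) * ∑ v ∈ Icc 1 V, F ((x * h - b) + ((2 * v : ℕ) : ZMod p) * h) :=
      (hbij.sum_comp (fun c : ZMod p =>
        (w c : ℂ) * ∑ v ∈ Icc 1 V, F (c + ((2 * v : ℕ) : ZMod p) * h))).symm
    rw [h3]
    refine (norm_sum_le _ _).trans (Finset.sum_le_sum fun x _ => ?_)
    rw [norm_mul, Complex.norm_real, Real.norm_of_nonneg (hw _), Finset.sum_congr rfl fun v _ => hFv x v]
    exact le_refl _
  · refine (norm_sum_le _ _).trans (Finset.sum_le_sum fun v _ => ?_)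
    refine (norm_sum_le _ _).trans (Finset.sum_le_sum fun c _ => ?_)
    rw [norm_mul, Complex.norm_real, Real.norm_eq_abs]
    exact mul_le_of_le_one_right (abs_nonneg _) (hF _)

end Pool.Agent.WS
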